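import Pool.Agent.H500.TH.Stm
import Pool.Agent.H297.R2.Dih

set_option autoImplicit false
set_option linter.unusedSectionVars false

/-!
# Dihedral residual representations, arbitrary coefficient fields (project TH, part D6)
-/

namespace Pool.Agent.H685.TH.TDih

open NumberField IsDedekindDomain Filter Topology
open Pool.Agent.W401.Cheb (GK IsFrob IsInert dens)
open Pool.Agent.H500.MW (PosUD)
open Pool.Agent.H500.R2
open Pool.Agent.H297.R2.Dih (fin_norm exists_char)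

/-- **S_TDih** -/
theorem main : Pool.Agent.H500.TH.S_TCyc → Pool.Agent.H500.R2.S_FinChar →
    Pool.Agent.H500.TH.S_TDih := by
  intro hCyc hFC K E F _ _ _ _ _ _ i hKF N a hN hV Λ hΛ hU
  set P : HeightOneSpectrum (𝓞 E) → Subgroup (GK K) → Prop := fun lam U =>
    ∀ v : HeightOneSpectrum (𝓞 K), (N : 𝓞 K) ∉ v.asIdeal →
      ((Ideal.absNorm lam.asIdeal : ℕ) : 𝓞 K) ∉ v.asIdeal → ∀ σ, IsFrob v σ → σ ∉ U →
      a v ∈ lam.asIdeal with hP
  set W : HeightOneSpectrum (𝓞 E) → (GK K →* ℂˣ) → Prop := fun lam θ =>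
    IsOpen (θ.ker : Set (GK K)) ∧ (∀ σ, θ σ ^ 2 = 1) ∧
      UnrOut (N * Ideal.absNorm lam.asIdeal) θ.ker ∧ θ.ker.index = 2 ∧ P lam θ.ker with hW
  have h1 := hCyc K E F i hKF N 2 hN (by norm_num)
    {v : HeightOneSpectrum (𝓞 K) | (N : 𝓞 K) ∉ v.asIdeal ∧ SpC F v ∧ a v ≠ 0} hV
    (fun v hv => ⟨hv.1, hv.2.1⟩) W (fun lam θ h => ⟨h.1, h.2.1, h.2.2.1⟩) (by
      intro v hv
      refine ((Pool.Agent.H500.Kum.fin_mem hv.2.2).union (fin_norm (E := E) v)).subset ?_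
      rintro lam ⟨θ, hθ, σ, hσ, hne⟩
      by_cases hl : ((Ideal.absNorm lam.asIdeal : ℕ) : 𝓞 K) ∈ v.asIdeal
      · exact Or.inr hl
      · left
        exact hθ.2.2.2.2 v hv.1 hl σ hσ (fun h => hne (MonoidHom.mem_ker.1 h)))
  have h2 := (hΛ.diff h1).infinite
  have hfin := hFC K N 2 hN (by norm_num)
  set T : Set (GK K →* ℂˣ) :=
    {θ : GK K →* ℂˣ | IsOpen (θ.ker : Set (GK K)) ∧ (∀ σ, θ σ ^ 2 = 1) ∧ UnrOut N θ.ker} with hT
  have h3 : ∃ θ ∈ T, {lam | W lam θ}.Infinite := by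
    by_contra hno
    push Not at hno
    apply h2
    refine (hfin.biUnion (t := fun θ => {lam | W lam θ}) (fun θ hθ => hno θ hθ)).subset ?_
    rintro lam ⟨hlam1, hlam2⟩
    obtain ⟨U, hU1, hU2, hU3, hU4⟩ := hU lam hlam1
    obtain ⟨θ, hθ1, hθ2⟩ := exists_char U hU2
    have hWθ : W lam θ := by
      refine ⟨?_, hθ2, ?_, ?_, ?_⟩
      · rw [hθ1]; exact hU1
      · rw [hθ1]; exact hU3
      · rw [hθ1]; exact hU2
      · rw [hθ1]; exact hU4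
    have hun : UnrOut N θ.ker := by
      by_contra hn
      exact hlam2 ⟨θ, hWθ, hn⟩
    exact Set.mem_biUnion (show θ ∈ T from ⟨hWθ.1, hWθ.2.1, hun⟩) hWθ
  obtain ⟨θ, hθT, hinf⟩ := h3
  obtain ⟨lam0, hlam0⟩ := hinf.nonempty
  refine ⟨θ.ker, hθT.1, hlam0.2.2.2.1, hθT.2.2, ?_⟩
  intro v hv σ hσ hσU
  refine Pool.Agent.H500.HC.zero_of_inf (hinf.sdiff (fin_norm (E := E) v)) ?_
  rintro lam ⟨hl1, hl2⟩
  exact hl1.2.2.2.2 v hv hl2 σ hσ hσU

end Pool.Agent.H685.TH.TDih
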